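import Pool.Agent.H516.PCF.All

/-! `S_UM` of the PCF collection (MP_392fd3_nt): addition of functions for Gauss valuations,
relative to `S_NAB`, `S_GVB`, `S_GEN`. -/

namespace Pool.Agent.H106.PCF

open Polynomial
open Pool.Agent.H516.PCF

section
variable {F : Type} [Field F] {p : ℕ} {w : F → ℝ}

/-- valuation of a product over a multiset of nonzero elements -/
theorem w_msprod (hw : NA p w) (h1 : w 1 = 0) (s : Multiset F) (hs : ∀ x ∈ s, x ≠ 0) :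
    s.prod ≠ 0 ∧ w s.prod = (s.map w).sum := by
  induction s using Multiset.induction_on with
  | empty => exact ⟨by simp, by simpa using h1⟩
  | cons a s ih =>
    have ha : a ≠ 0 := hs a (Multiset.mem_cons_self a s)
    obtain ⟨i1, i2⟩ := ih (fun x hx => hs x (Multiset.mem_cons_of_mem hx))
    refine ⟨?_, ?_⟩
    · rw [Multiset.prod_cons]; exact mul_ne_zero ha i1
    · rw [Multiset.prod_cons, Multiset.map_cons, Multiset.sum_cons, hw.mul a _ ha i1, i2]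

variable [IsAlgClosed F]

/-- value at a generic point -/
theorem w_eval (hw : NA p w) (h1 : w 1 = 0) (U : F[X]) (hU : U ≠ 0) (a x : F) (ρ : ℝ)
    (hx : ∀ z ∈ U.roots, x ≠ z ∧ w (x - z) = mn w a z ρ) :
    U.eval x ≠ 0 ∧ w (U.eval x) = gv w U a ρ := by
  have hsp : U.Splits := IsAlgClosed.splits U
  have hfac : U.eval x = U.leadingCoeff * (U.roots.map fun z => x - z).prod := by
    have h := congrArg (fun V : F[X] => V.eval x) hsp.eq_prod_roots
    simp only [eval_mul, eval_C, eval_multiset_prod, Multiset.map_map, Function.comp_def,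
      eval_sub, eval_X] at h
    exact h
  have hl : U.leadingCoeff ≠ 0 := leadingCoeff_ne_zero.mpr hU
  obtain ⟨m1, m2⟩ := w_msprod hw h1 (U.roots.map fun z => x - z) (by
    intro y hy
    obtain ⟨z, hz, rfl⟩ := Multiset.mem_map.mp hy
    exact sub_ne_zero.mpr (hx z hz).1)
  refine ⟨?_, ?_⟩
  · rw [hfac]; exact mul_ne_zero hl m1
  · rw [hfac, hw.mul _ _ hl m1, m2, Multiset.map_map, gv]
    refine congrArg (fun t => w U.leadingCoeff + t) ?_
    refine congrArg Multiset.sum (Multiset.map_congr rfl ?_)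
    intro z hz
    exact (hx z hz).2

end

/-- first inequality at a value of the form `w u₀` -/
theorem um_val (hNAB : S_NAB) (hGEN : S_GEN) (F : Type) [Field F] [CharZero F] [IsAlgClosed F]
    (p : ℕ) (w : F → ℝ) (hp : p.Prime) (hw : NA p w) (U₁ U₂ U₃ : F[X]) (h1 : U₁ ≠ 0)
    (h2 : U₂ ≠ 0) (h3 : U₃ ≠ 0) (h : U₃ = U₁ + U₂) (a u₀ : F) (hu₀ : u₀ ≠ 0) :
    min (gv w U₁ a (w u₀)) (gv w U₂ a (w u₀)) ≤ gv w U₃ a (w u₀) := by
  classical
  obtain ⟨n1, -⟩ := hNAB F p w hp hw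
  let T : Set F := {s | s ∈ U₁.roots ∨ s ∈ U₂.roots ∨ s ∈ U₃.roots}
  have hT : T.Finite := by
    have : T ⊆ ((U₁.roots.toFinset ∪ U₂.roots.toFinset ∪ U₃.roots.toFinset : Finset F) : Set F) := by
      intro s hs
      simp only [Finset.coe_union, Set.mem_union, Finset.mem_coe, Multiset.mem_toFinset]
      rcases hs with hs | hs | hs
      · exact Or.inl (Or.inl hs)
      · exact Or.inl (Or.inr hs)
      · exact Or.inr hs
    exact (Finset.finite_toSet _).subset this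
  obtain ⟨u, -, -, hu⟩ := hGEN F p w hp hw T hT a u₀ hu₀ 1 one_pos
  have hu' : ∀ s ∈ T, a + u ≠ s ∧ w (a + u - s) = mn w a s (w u₀) := by
    intro s hs
    have := hu 1 (one_pow 1) s hs
    rw [mul_one] at this
    exact this
  obtain ⟨e1, v1⟩ := w_eval hw n1 U₁ h1 a (a + u) (w u₀) (fun z hz => hu' z (Or.inl hz))
  obtain ⟨e2, v2⟩ := w_eval hw n1 U₂ h2 a (a + u) (w u₀) (fun z hz => hu' z (Or.inr (Or.inl hz)))
  obtain ⟨e3, v3⟩ := w_eval hw n1 U₃ h3 a (a + u) (w u₀) (fun z hz => hu' z (Or.inr (Or.inr hz)))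
  have he : U₃.eval (a + u) = U₁.eval (a + u) + U₂.eval (a + u) := by rw [h, eval_add]
  rw [← v1, ← v2, ← v3, he]
  exact hw.add _ _ e1 e2 (by rw [← he]; exact e3)

/-- first inequality -/
theorem um_min (hNAB : S_NAB) (hGVB : S_GVB) (hGEN : S_GEN) (F : Type) [Field F] [CharZero F]
    [IsAlgClosed F] (p : ℕ) (w : F → ℝ) (hp : p.Prime) (hw : NA p w) (U₁ U₂ U₃ : F[X])
    (h1 : U₁ ≠ 0) (h2 : U₂ ≠ 0) (h3 : U₃ ≠ 0) (h : U₃ = U₁ + U₂) (a : F) (ρ : ℝ) :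
    min (gv w U₁ a ρ) (gv w U₂ a ρ) ≤ gv w U₃ a ρ := by
  obtain ⟨-, -, hc, -⟩ := hGVB F p w hp hw
  obtain ⟨-, -, -, -, -, -, -, -, -, -, -, hd⟩ := hNAB F p w hp hw
  by_contra hlt
  rw [not_le] at hlt
  have hopen : IsOpen {r : ℝ | gv w U₃ a r < min (gv w U₁ a r) (gv w U₂ a r)} :=
    isOpen_lt (hc U₃ a) ((hc U₁ a).min (hc U₂ a))
  obtain ⟨ε, hε, hb⟩ := Metric.isOpen_iff.mp hopen ρ hlt
  obtain ⟨u, hu0, hu1, hu2⟩ := hd ρ (ρ + ε) (by linarith)
  have hmem : w u ∈ Metric.ball ρ ε := by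
    rw [Metric.mem_ball, Real.dist_eq, abs_lt]
    constructor <;> linarith
  have hlt' : gv w U₃ a (w u) < min (gv w U₁ a (w u)) (gv w U₂ a (w u)) := hb hmem
  exact absurd (um_val hNAB hGEN F p w hp hw U₁ U₂ U₃ h1 h2 h3 h a u hu0) (not_le.mpr hlt')

theorem um (hNAB : S_NAB) (hGVB : S_GVB) (hGEN : S_GEN) : Pool.Agent.H516.PCF.S_UM := by
  intro F _ _ _ p w hp hw U₁ U₂ U₃ h1 h2 h3 h a ρ
  obtain ⟨n1, nneg, -⟩ := hNAB F p w hp hw
  obtain ⟨-, hC, -⟩ := hGVB F p w hp hw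
  have hwneg : w (-1 : F) = 0 := by rw [nneg 1 one_ne_zero, n1]
  have hgneg : ∀ U : F[X], U ≠ 0 → gv w (-U) a ρ = gv w U a ρ := by
    intro U hU
    have := hC (-1) U (neg_ne_zero.mpr one_ne_zero) hU a ρ
    rw [hwneg, zero_add] at this
    rw [← this]
    congr 1
    rw [C_neg, C_1]
    ring
  have key : ∀ V₁ V₂ V₃ : F[X], V₁ ≠ 0 → V₂ ≠ 0 → V₃ ≠ 0 → V₃ = V₁ + V₂ →
      gv w V₁ a ρ < gv w V₂ a ρ → gv w V₃ a ρ = gv w V₁ a ρ := by
    intro V₁ V₂ V₃ k1 k2 k3 k hlt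
    have hge := um_min hNAB hGVB hGEN F p w hp hw V₁ V₂ V₃ k1 k2 k3 k a ρ
    rw [min_eq_left hlt.le] at hge
    refine le_antisymm ?_ hge
    have hsum : V₁ = V₃ + (-V₂) := by rw [k]; ring
    have hmin := um_min hNAB hGVB hGEN F p w hp hw V₃ (-V₂) V₁ k3 (neg_ne_zero.mpr k2) k1 hsum a ρ
    rw [hgneg V₂ k2] at hmin
    rcases min_le_iff.mp hmin with h' | h'
    · exact h'
    · exact absurd h' (not_le.mpr hlt)
  refine ⟨um_min hNAB hGVB hGEN F p w hp hw U₁ U₂ U₃ h1 h2 h3 h a ρ, ?_, ?_⟩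
  · exact key U₁ U₂ U₃ h1 h2 h3 h
  · exact key U₂ U₁ U₃ h2 h1 h3 (by rw [h, add_comm])

end Pool.Agent.H106.PCF
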